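import Pool.Agent.Q62.TR.Slab

set_option autoImplicit false

namespace Q62.TR

open MeasureTheory Set Filter Topology

theorem vol_slab (c : ℝ × ℝ) (m a b : ℝ) :
    volume {w : ℝ × ℝ | |(w.1 - c.1) + m * (w.2 - c.2)| ≤ a ∧ |w.2 - c.2| ≤ b} ≤
      ENNReal.ofReal (2 * a) * ENNReal.ofReal (2 * b) := by
  set T := {w : ℝ × ℝ | |(w.1 - c.1) + m * (w.2 - c.2)| ≤ a ∧ |w.2 - c.2| ≤ b} with hT
  have hTm : MeasurableSet T := by
    have h1 : IsClosed {w : ℝ × ℝ | |(w.1 - c.1) + m * (w.2 - c.2)| ≤ a} :=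
      isClosed_le (by fun_prop) continuous_const
    have h2 : IsClosed {w : ℝ × ℝ | |w.2 - c.2| ≤ b} :=
      isClosed_le (by fun_prop) continuous_const
    exact (h1.inter h2).measurableSet
  rw [Measure.volume_eq_prod, Measure.prod_apply_symm hTm]
  calc ∫⁻ y, volume ((fun x => (x, y)) ⁻¹' T) ≤
        ∫⁻ y, (Icc (c.2 - b) (c.2 + b)).indicator (fun _ => ENNReal.ofReal (2 * a)) y := by
        refine lintegral_mono fun y => ?_
        by_cases hy : y ∈ Icc (c.2 - b) (c.2 + b)
        · rw [indicator_of_mem hy]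
          have hsub : (fun x : ℝ => (x, y)) ⁻¹' T ⊆
              Icc (c.1 - m * (y - c.2) - a) (c.1 - m * (y - c.2) + a) := by
            intro x hx
            have := abs_le.1 hx.1
            simp only at this
            constructor <;> linarith [this.1, this.2]
          refine (measure_mono hsub).trans ?_
          rw [Real.volume_Icc]
          exact ENNReal.ofReal_le_ofReal (by linarith)
        · rw [indicator_of_notMem hy]
          have : (fun x : ℝ => (x, y)) ⁻¹' T = ∅ := by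
            ext x
            simp only [mem_preimage, mem_empty_iff_false, iff_false]
            intro hx
            have := abs_le.1 hx.2
            simp only at this
            exact hy ⟨by linarith [this.1], by linarith [this.2]⟩
          rw [this]
          simp
    _ = ENNReal.ofReal (2 * a) * volume (Icc (c.2 - b) (c.2 + b)) := by
        rw [lintegral_indicator measurableSet_Icc, setLIntegral_const]
    _ = _ := by
        rw [Real.volume_Icc]
        congr 2
        ring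

theorem null_column {f g1 g2 : ℝ × ℝ → ℝ} {V : Set (ℝ × ℝ)} (hf : HasGrad f g1 g2 V)
    (hV : Convex ℝ V) {x0 δ R : ℝ} (hδ : 0 < δ) (hR : 0 < R) (hb : ∀ z ∈ V, |z.2| ≤ R)
    (hu1 : UniformContinuousOn g1 V) (hu2 : UniformContinuousOn g2 V) :
    volume ((fun y => (g1 (x0, y), g2 (x0, y))) '' {y | ∃ m, Ruling g1 g2 V x0 δ y m}) = 0 := by
  set E := {y | ∃ m, Ruling g1 g2 V x0 δ y m} with hE
  set S := (fun y => (g1 (x0, y), g2 (x0, y))) '' E with hS
  have hEV : ∀ y ∈ E, (x0, y) ∈ V := by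
    rintro y ⟨m, hm⟩
    have := (hm 0 (by simp; exact hδ.le)).1
    simpa using this
  have key : ∀ ε : ℝ, 0 < ε → volume S ≤ ENNReal.ofReal (24 * R / δ * ε ^ 2) := by
    intro ε hε
    obtain ⟨ρ1, hρ1, h1⟩ := Metric.uniformContinuousOn_iff.1 hu1 ε hε
    obtain ⟨ρ2, hρ2, h2⟩ := Metric.uniformContinuousOn_iff.1 hu2 ε hε
    set ρ := min ρ1 ρ2 with hρ
    have hρ0 : 0 < ρ := lt_min hρ1 hρ2
    obtain ⟨N, hN⟩ := exists_nat_gt (4 * R / ρ)
    have hN0 : (0 : ℝ) < N := lt_trans (by positivity) hN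
    set r := 2 * R / N with hr
    have hr0 : 0 < r := by positivity
    have hrρ : 2 * r < ρ := by
      rw [div_lt_iff₀ hρ0] at hN
      have : 2 * r = 4 * R / N := by rw [hr]; ring
      rw [this, div_lt_iff₀ hN0]
      linarith
    -- one interval
    have one : ∀ i : ℕ, volume ((fun y => (g1 (x0, y), g2 (x0, y))) ''
        (E ∩ Icc (-R + i * r) (-R + (i + 1) * r))) ≤
        ENNReal.ofReal (2 * (3 / δ * r * ε)) * ENNReal.ofReal (2 * ε) := by
      intro i
      rcases (E ∩ Icc (-R + i * r) (-R + (i + 1) * r)).eq_empty_or_nonempty with h | h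
      · rw [h]
        simp
      · obtain ⟨y, ⟨m, hm⟩, hy⟩ := h
        refine (measure_mono ?_).trans (vol_slab (g1 (x0, y), g2 (x0, y)) m (3 / δ * r * ε) ε)
        rintro _ ⟨y', ⟨⟨m', hm'⟩, hy'⟩, rfl⟩
        have hyy : |y' - y| ≤ r := by
          rw [abs_le]
          constructor <;> nlinarith [hy.1, hy.2, hy'.1, hy'.2]
        have hyV := hEV y ⟨m, hm⟩
        have hyV' := hEV y' ⟨m', hm'⟩
        have hd : dist ((x0, y') : ℝ × ℝ) (x0, y) = |y' - y| := by
          rw [Prod.dist_eq, dist_self, max_eq_right dist_nonneg, Real.dist_eq]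
        have hs := slab hf hV hδ hε.le hm hm' (fun z hz z' hz' hzz => by
          have := h2 z hz z' hz' (lt_of_le_of_lt hzz (by
            have := min_le_right ρ1 ρ2
            nlinarith))
          rw [Real.dist_eq] at this
          exact this.le)
        refine ⟨hs.trans ?_, ?_⟩
        · gcongr
        · have := h2 (x0, y') hyV' (x0, y) hyV (by
            rw [hd]
            have := min_le_right ρ1 ρ2
            linarith)
          rw [Real.dist_eq] at this
          exact this.le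
    have hcov : S ⊆ ⋃ i ∈ Finset.range N, (fun y => (g1 (x0, y), g2 (x0, y))) ''
        (E ∩ Icc (-R + i * r) (-R + (i + 1) * r)) := by
      rintro _ ⟨y, hy, rfl⟩
      have hyR := abs_le.1 (hb _ (hEV y hy))
      simp only at hyR
      simp only [mem_iUnion, Finset.mem_range, exists_prop]
      have hNr : N * r = 2 * R := by
        rw [hr]
        field_simp
      -- the index
      by_cases hlast : y = R
      · have hNpos : 0 < N := by exact_mod_cast hN0
        refine ⟨N - 1, by omega, ⟨y, ⟨hy, ?_⟩, rfl⟩⟩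
        have : ((N - 1 : ℕ) : ℝ) = N - 1 := by
          rw [Nat.cast_sub (by omega)]
          simp
        rw [this, hlast]
        constructor
        · nlinarith
        · nlinarith
      · have hlt : y < R := lt_of_le_of_ne hyR.2 hlast
        have h0 : 0 ≤ (y + R) / r := div_nonneg (by linarith [hyR.1]) hr0.le
        refine ⟨⌊(y + R) / r⌋₊, ?_, ⟨y, ⟨hy, ?_⟩, rfl⟩⟩
        · rw [Nat.floor_lt h0, div_lt_iff₀ hr0]
          linarith
        · have e1 := Nat.floor_le h0
          have e2 := Nat.lt_floor_add_one ((y + R) / r)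
          rw [le_div_iff₀ hr0] at e1
          rw [div_lt_iff₀ hr0] at e2
          constructor <;> linarith
    calc volume S ≤ ∑ i ∈ Finset.range N, volume ((fun y => (g1 (x0, y), g2 (x0, y))) ''
          (E ∩ Icc (-R + i * r) (-R + (i + 1) * r))) :=
          (measure_mono hcov).trans (measure_biUnion_finset_le _ _)
      _ ≤ ∑ i ∈ Finset.range N, ENNReal.ofReal (2 * (3 / δ * r * ε)) *
            ENNReal.ofReal (2 * ε) := Finset.sum_le_sum fun i _ => one i
      _ = ENNReal.ofReal (24 * R / δ * ε ^ 2) := by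
          rw [Finset.sum_const, Finset.card_range, nsmul_eq_mul,
            ← ENNReal.ofReal_natCast, ← ENNReal.ofReal_mul (by positivity),
            ← ENNReal.ofReal_mul (by positivity)]
          congr 1
          rw [hr]
          field_simp
          ring
  have hle : volume S ≤ 0 := by
    have htend : Tendsto (fun ε : ℝ => ENNReal.ofReal (24 * R / δ * ε ^ 2)) (𝓝[>] 0) (𝓝 0) := by
      have h1 : Tendsto (fun ε : ℝ => 24 * R / δ * ε ^ 2) (𝓝[>] 0) (𝓝 (24 * R / δ * 0 ^ 2)) :=
        ((continuous_const.mul (continuous_id.pow 2)).tendsto 0).mono_left nhdsWithin_le_nhds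
      have h2 := ENNReal.tendsto_ofReal h1
      simpa using h2
    refine ge_of_tendsto htend ?_
    filter_upwards [self_mem_nhdsWithin] with ε hε
    exact key ε hε
  exact nonpos_iff_eq_zero.1 hle

theorem ruling_of_segment {g1 g2 : ℝ × ℝ → ℝ} {V : Set (ℝ × ℝ)} {p e : ℝ × ℝ} {ε : ℝ}
    (hε : 0 < ε) (he : e.1 ≠ 0)
    (h : ∀ s : ℝ, |s| < ε → p + s • e ∈ V ∧ g1 (p + s • e) = g1 p ∧ g2 (p + s • e) = g2 p) :
    ∃ (q : ℚ) (n : ℕ), (g1 p, g2 p) ∈ (fun y => (g1 ((q : ℝ), y), g2 ((q : ℝ), y))) ''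
      {y | ∃ m, Ruling g1 g2 V q (1 / ((n : ℝ) + 1)) y m} := by
  set m := e.2 / e.1 with hm
  set ε' := ε * |e.1| with hε'
  have hε'0 : 0 < ε' := by positivity
  have hline : ∀ t : ℝ, |t| < ε' → (p.1 + t, p.2 + m * t) ∈ V ∧
      g1 (p.1 + t, p.2 + m * t) = g1 p ∧ g2 (p.1 + t, p.2 + m * t) = g2 p := by
    intro t ht
    have h1 := h (t / e.1) (by
      rw [abs_div, div_lt_iff₀ (abs_pos.2 he)]
      exact ht)
    have h2 : p + (t / e.1) • e = (p.1 + t, p.2 + m * t) := by
      ext
      · simp [div_mul_cancel₀ _ he]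
      · simp [hm]
        field_simp
    rwa [h2] at h1
  obtain ⟨q, hq⟩ := exists_rat_btwn (show p.1 < p.1 + ε' / 2 by linarith)
  obtain ⟨n, hn⟩ := exists_nat_one_div_lt (show 0 < ε' / 2 by positivity)
  have hqp : |(q : ℝ) - p.1| < ε' / 2 := by
    rw [abs_of_pos (by linarith [hq.1])]
    linarith [hq.2]
  have hbase := hline (q - p.1) (by linarith)
  have e0 : p.1 + ((q : ℝ) - p.1) = q := by ring
  rw [e0] at hbase
  refine ⟨q, n, p.2 + m * (q - p.1), ⟨m, ?_⟩, ?_⟩
  · intro t ht
    have h1 := hline (q - p.1 + t) (by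
      calc |(q : ℝ) - p.1 + t| ≤ |(q : ℝ) - p.1| + |t| := abs_add_le _ _
        _ < ε' := by linarith)
    have e1 : p.1 + ((q : ℝ) - p.1 + t) = q + t := by ring
    have e2 : p.2 + m * ((q : ℝ) - p.1 + t) = p.2 + m * (q - p.1) + m * t := by ring
    rw [e1, e2] at h1
    exact ⟨h1.1, h1.2.1.trans hbase.2.1.symm, h1.2.2.trans hbase.2.2.symm⟩
  · simp only
    rw [hbase.2.1, hbase.2.2]

/-- The set `V` with the two coordinates exchanged. -/
theorem HasGrad.swap {f g1 g2 : ℝ × ℝ → ℝ} {V : Set (ℝ × ℝ)} (hf : HasGrad f g1 g2 V) :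
    HasGrad (fun z => f z.swap) (fun z => g2 z.swap) (fun z => g1 z.swap)
      (Prod.swap ⁻¹' V) := by
  intro z hz
  have h1 : HasFDerivAt (Prod.swap : ℝ × ℝ → ℝ × ℝ)
      ((ContinuousLinearMap.snd ℝ ℝ ℝ).prod (ContinuousLinearMap.fst ℝ ℝ ℝ)) z := by
    have := (hasFDerivAt_snd (𝕜 := ℝ) (p := z)).prodMk (hasFDerivAt_fst (𝕜 := ℝ) (p := z))
    exact this
  have h2 := (hf z.swap hz).comp z h1
  refine h2.congr_fderiv ?_
  ext <;> simp

/-- The gradient image is null. -/
theorem null_grad {f g1 g2 : ℝ × ℝ → ℝ} {V : Set (ℝ × ℝ)} (hf : HasGrad f g1 g2 V)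
    (hV : Convex ℝ V) {R : ℝ} (hR : 0 < R) (hb : ∀ z ∈ V, |z.1| ≤ R ∧ |z.2| ≤ R)
    (hu1 : UniformContinuousOn g1 V) (hu2 : UniformContinuousOn g2 V)
    (hT : ∀ p ∈ V, ∃ e : ℝ × ℝ, e ≠ 0 ∧ ∃ ε > 0, ∀ s : ℝ, |s| < ε →
      p + s • e ∈ V ∧ g1 (p + s • e) = g1 p ∧ g2 (p + s • e) = g2 p) :
    volume ((fun z => (g1 z, g2 z)) '' V) = 0 := by
  set A : ℚ → ℕ → Set (ℝ × ℝ) := fun q n => (fun y => (g1 ((q : ℝ), y), g2 ((q : ℝ), y))) ''
      {y | ∃ m, Ruling g1 g2 V q (1 / ((n : ℝ) + 1)) y m} with hA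
  set V' : Set (ℝ × ℝ) := Prod.swap ⁻¹' V with hV'
  set B : ℚ → ℕ → Set (ℝ × ℝ) := fun q n =>
      (fun y => (g2 (Prod.swap ((q : ℝ), y)), g1 (Prod.swap ((q : ℝ), y)))) ''
      {y | ∃ m, Ruling (fun z => g2 z.swap) (fun z => g1 z.swap) V' q (1 / ((n : ℝ) + 1)) y m}
      with hB
  have hA0 : ∀ q n, volume (A q n) = 0 := fun q n =>
    null_column hf hV (by positivity) hR (fun z hz => (hb z hz).2) hu1 hu2
  have hswap : LipschitzWith 1 (Prod.swap : ℝ × ℝ → ℝ × ℝ) := LipschitzWith.of_dist_le_mul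
    (fun x y => by
      simp only [Prod.dist_eq, Prod.fst_swap, Prod.snd_swap, NNReal.coe_one, one_mul]
      rw [max_comm])
  have hu1' : UniformContinuousOn (fun z : ℝ × ℝ => g2 z.swap) V' :=
    hu2.comp hswap.uniformContinuous.uniformContinuousOn (fun z hz => hz)
  have hu2' : UniformContinuousOn (fun z : ℝ × ℝ => g1 z.swap) V' :=
    hu1.comp hswap.uniformContinuous.uniformContinuousOn (fun z hz => hz)
  have hVc' : Convex ℝ V' := by
    intro x hx y hy a b ha hb hab
    have := hV hx hy ha hb hab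
    exact this
  have hB0 : ∀ q n, volume (Prod.swap ⁻¹' (B q n)) = 0 := by
    intro q n
    have h1 : volume (B q n) = 0 :=
      null_column hf.swap hVc' (by positivity) hR (fun z hz => (hb z.swap hz).1) hu1' hu2'
    have h2 : MeasurePreserving (Prod.swap : ℝ × ℝ → ℝ × ℝ) volume volume :=
      Measure.measurePreserving_swap
    exact h2.quasiMeasurePreserving.preimage_null h1
  have hcov : (fun z => (g1 z, g2 z)) '' V ⊆
      (⋃ q, ⋃ n, A q n) ∪ ⋃ q, ⋃ n, Prod.swap ⁻¹' (B q n) := by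
    rintro _ ⟨p, hp, rfl⟩
    obtain ⟨e, he, ε, hε, h⟩ := hT p hp
    by_cases h1 : e.1 = 0
    · have h2 : e.2 ≠ 0 := by
        intro h2
        exact he (Prod.ext h1 h2)
      right
      obtain ⟨q, n, hq⟩ := ruling_of_segment (g1 := fun z => g2 z.swap)
        (g2 := fun z => g1 z.swap) (V := V') (p := p.swap) (e := e.swap) hε (by simpa using h2)
        (fun s hs => by
          have h3 := h s hs
          exact ⟨h3.1, h3.2.2, h3.2.1⟩)
      simp only [mem_iUnion]
      exact ⟨q, n, hq⟩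
    · left
      obtain ⟨q, n, hq⟩ := ruling_of_segment hε h1 h
      simp only [mem_iUnion]
      exact ⟨q, n, hq⟩
  refine measure_mono_null hcov (measure_union_null ?_ ?_)
  · exact measure_iUnion_null fun q => measure_iUnion_null fun n => hA0 q n
  · exact measure_iUnion_null fun q => measure_iUnion_null fun n => hB0 q n

end Q62.TR
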