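import Pool.Agent.Q62.TR.Null

set_option autoImplicit false

namespace Q62.TR

open MeasureTheory Set Filter Topology Function
open scoped RealInnerProductSpace NNReal

/-- The coordinate plane. -/
abbrev E2 := EuclideanSpace ℝ (Fin 2)

/-- The ambient Euclidean space. -/
abbrev E3 := EuclideanSpace ℝ (Fin 3)

/-- Normalisation is Lipschitz outside the unit ball. -/
theorem norm_normalize_sub {u v : E3} (hu : 1 ≤ ‖u‖) (hv : 1 ≤ ‖v‖) :
    ‖(‖u‖⁻¹ : ℝ) • u - (‖v‖⁻¹ : ℝ) • v‖ ≤ 2 * ‖u - v‖ := by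
  have hu0 : 0 < ‖u‖ := by linarith
  have hv0 : 0 < ‖v‖ := by linarith
  have h1 : (‖u‖⁻¹ : ℝ) • u - (‖v‖⁻¹ : ℝ) • v =
      (‖u‖⁻¹ : ℝ) • (u - v) + ((‖u‖⁻¹ : ℝ) - ‖v‖⁻¹) • v := by
    rw [smul_sub, sub_smul]
    abel
  rw [h1]
  refine (norm_add_le _ _).trans ?_
  rw [norm_smul, norm_smul, norm_inv, norm_norm, Real.norm_eq_abs]
  have h2 : |(‖u‖⁻¹ : ℝ) - ‖v‖⁻¹| * ‖v‖ = ‖u‖⁻¹ * |‖v‖ - ‖u‖| := by
    have : (‖u‖⁻¹ : ℝ) - ‖v‖⁻¹ = ‖u‖⁻¹ * (‖v‖ - ‖u‖) * ‖v‖⁻¹ := by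
      field_simp
    rw [this, abs_mul, abs_mul, abs_of_pos (inv_pos.2 hu0), abs_of_pos (inv_pos.2 hv0)]
    field_simp
  rw [h2]
  have h3 : |‖v‖ - ‖u‖| ≤ ‖u - v‖ := by
    rw [norm_sub_rev]
    exact abs_norm_sub_norm_le _ _
  have h4 : ‖u‖⁻¹ ≤ 1 := inv_le_one_of_one_le₀ hu
  have h5 : 0 ≤ ‖u - v‖ := norm_nonneg _
  have h6 : 0 ≤ ‖u‖⁻¹ := by positivity
  nlinarith [abs_nonneg (‖v‖ - ‖u‖)]

/-- The unit normal as a function of the gradient. -/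
noncomputable def psi (e1 e2 e3 : E3) (w : ℝ × ℝ) : E3 :=
  (‖e3 - w.1 • e1 - w.2 • e2‖⁻¹ : ℝ) • (e3 - w.1 • e1 - w.2 • e2)

theorem inner_expand (e1 e2 e3 w : E3) (x y : ℝ) :
    ⟪e3 - x • e1 - y • e2, w⟫ = ⟪e3, w⟫ - x * ⟪e1, w⟫ - y * ⟪e2, w⟫ := by
  rw [inner_sub_left, inner_sub_left, real_inner_smul_left, real_inner_smul_left]

theorem one_le_norm {e1 e2 e3 : E3} (h3 : ‖e3‖ = 1) (h1 : ⟪e3, e1⟫ = 0) (h2 : ⟪e3, e2⟫ = 0)
    (x y : ℝ) : 1 ≤ ‖e3 - x • e1 - y • e2‖ := by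
  have h4 : ⟪e3, e3 - x • e1 - y • e2⟫ = 1 := by
    rw [inner_sub_right, inner_sub_right, inner_smul_right, inner_smul_right, h1, h2,
      real_inner_self_eq_norm_sq, h3]
    norm_num
  have h5 := real_inner_le_norm e3 (e3 - x • e1 - y • e2)
  rw [h4, h3, one_mul] at h5
  exact h5

theorem psi_lipschitz {e1 e2 e3 : E3} (h3 : ‖e3‖ = 1) (h1 : ⟪e3, e1⟫ = 0)
    (h2 : ⟪e3, e2⟫ = 0) : ∃ K : ℝ≥0, LipschitzWith K (psi e1 e2 e3) := by
  refine ⟨⟨2 * (‖e1‖ + ‖e2‖), by positivity⟩, LipschitzWith.of_dist_le_mul fun w w' => ?_⟩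
  rw [dist_eq_norm]
  unfold psi
  refine (norm_normalize_sub (one_le_norm h3 h1 h2 _ _) (one_le_norm h3 h1 h2 _ _)).trans ?_
  have e : (e3 - w.1 • e1 - w.2 • e2) - (e3 - w'.1 • e1 - w'.2 • e2) =
      -((w.1 - w'.1) • e1 + (w.2 - w'.2) • e2) := by
    rw [sub_smul, sub_smul]
    abel
  rw [e, norm_neg]
  have hd1 : |w.1 - w'.1| ≤ dist w w' := by
    rw [Prod.dist_eq, ← Real.dist_eq]
    exact le_max_left _ _
  have hd2 : |w.2 - w'.2| ≤ dist w w' := by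
    rw [Prod.dist_eq, ← Real.dist_eq]
    exact le_max_right _ _
  have h6 : ‖(w.1 - w'.1) • e1 + (w.2 - w'.2) • e2‖ ≤
      dist w w' * ‖e1‖ + dist w w' * ‖e2‖ := by
    refine (norm_add_le _ _).trans ?_
    rw [norm_smul, norm_smul, Real.norm_eq_abs, Real.norm_eq_abs]
    gcongr
  change 2 * ‖(w.1 - w'.1) • e1 + (w.2 - w'.2) • e2‖ ≤ 2 * (‖e1‖ + ‖e2‖) * dist w w'
  nlinarith

theorem psi_null {e1 e2 e3 : E3} (h3 : ‖e3‖ = 1) (h1 : ⟪e3, e1⟫ = 0)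
    (h2 : ⟪e3, e2⟫ = 0) {A : Set (ℝ × ℝ)} (hA : volume A = 0) :
    Measure.hausdorffMeasure 2 (psi e1 e2 e3 '' A) = 0 := by
  obtain ⟨K, hK⟩ := psi_lipschitz h3 h1 h2
  have h4 := hK.hausdorffMeasure_image_le (d := 2) (by norm_num) A
  rw [hausdorffMeasure_prod_real, hA, mul_zero] at h4
  exact nonpos_iff_eq_zero.1 h4

theorem patch {U : Set E2} (hU : IsOpen U) {F : E2 → E3} (hF : ContDiffOn ℝ 1 F U)
    (hinj : ∀ q ∈ U, Injective (fderiv ℝ F q))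
    (hT : ∀ q ∈ U, ∃ v : E3, v ≠ 0 ∧ ∃ ε > 0, ∃ c : ℝ → E2, ContinuousOn c (Ioo (-ε) ε) ∧
      c 0 = q ∧ ∀ s ∈ Ioo (-ε) ε, c s ∈ U ∧ F (c s) = F q + s • v ∧
        (fderiv ℝ F (c s)).range = (fderiv ℝ F q).range)
    {p : E2} (hp : p ∈ U) :
    ∃ G : Set E2, IsOpen G ∧ p ∈ G ∧ G ⊆ U ∧ ∃ n : E2 → E3, ContinuousOn n G ∧
      (∀ q ∈ G, ‖n q‖ = 1 ∧ ∀ h, ⟪n q, fderiv ℝ F q h⟫ = 0) ∧
      Measure.hausdorffMeasure 2 (n '' G) = 0 := by
  have hFd : ∀ q ∈ U, HasFDerivAt F (fderiv ℝ F q) q := fun q hq =>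
    ((hF.contDiffAt (hU.mem_nhds hq)).differentiableAt (by norm_num)).hasFDerivAt
  set L := fderiv ℝ F p with hL
  -- the frame
  set h1 : E2 := EuclideanSpace.single 0 1 with hh1
  set h2 : E2 := EuclideanSpace.single 1 1 with hh2
  set e1 := L h1 with he1
  set e2 := L h2 with he2
  have hspan : ∀ h : E2, L h = h 0 • e1 + h 1 • e2 := by
    intro h
    have : h = h 0 • h1 + h 1 • h2 := by
      ext i
      fin_cases i <;> simp [hh1, hh2]
    conv_lhs => rw [this]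
    rw [map_add, map_smul, map_smul]
  have hne : L.rangeᗮ ≠ ⊥ := by
    intro h0
    rw [Submodule.orthogonal_eq_bot_iff] at h0
    have h1 := LinearMap.finrank_range_le (L : E2 →ₗ[ℝ] E3)
    rw [show (L : E2 →ₗ[ℝ] E3).range = ⊤ from h0, finrank_top] at h1
    simp at h1
  obtain ⟨u, hu, hu0⟩ := (Submodule.ne_bot_iff _).1 hne
  set e3 : E3 := (‖u‖⁻¹ : ℝ) • u with he3
  have hun : 0 < ‖u‖ := norm_pos_iff.2 hu0
  have he3n : ‖e3‖ = 1 := by
    rw [he3, norm_smul, norm_inv, norm_norm, inv_mul_cancel₀ hun.ne']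
  have horth : ∀ h : E2, ⟪e3, L h⟫ = 0 := by
    intro h
    rw [he3, inner_smul_left]
    have := (Submodule.mem_orthogonal' _ _).1 hu (L h) ⟨h, rfl⟩
    rw [this, mul_zero]
  have o1 : ⟪e3, e1⟫ = 0 := horth h1
  have o2 : ⟪e3, e2⟫ = 0 := horth h2
  -- the projection
  set P : E3 →L[ℝ] ℝ × ℝ := (innerSL ℝ e1).prod (innerSL ℝ e2) with hP
  have hPa : ∀ x : E3, P x = (⟪e1, x⟫, ⟪e2, x⟫) := fun x => by simp [hP]
  set Φ : E2 → ℝ × ℝ := fun q => P (F q) with hΦ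
  have hAinj : Injective ((P.comp L : E2 →L[ℝ] ℝ × ℝ) : E2 →ₗ[ℝ] ℝ × ℝ) := by
    rw [injective_iff_map_eq_zero]
    intro h hh
    have h3 : P (L h) = 0 := hh
    rw [hPa, Prod.mk_eq_zero] at h3
    have h4 : ⟪L h, L h⟫ = 0 := by
      conv_lhs => rw [hspan h]
      rw [inner_add_left, inner_smul_left, inner_smul_left, ← hspan h, h3.1, h3.2]
      simp
    have h5 : L h = 0 := inner_self_eq_zero.1 h4
    exact (injective_iff_map_eq_zero L).1 (hinj p hp) h h5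
  set A : E2 ≃L[ℝ] ℝ × ℝ := (LinearMap.linearEquivOfInjective
    ((P.comp L : E2 →L[ℝ] ℝ × ℝ) : E2 →ₗ[ℝ] ℝ × ℝ) hAinj (by simp)).toContinuousLinearEquiv
    with hA
  have hAc : (A : E2 →L[ℝ] ℝ × ℝ) = P.comp L := by
    ext1 h
    rfl
  have hΦd : ∀ q ∈ U, HasFDerivAt Φ (P.comp (fderiv ℝ F q)) q := fun q hq =>
    P.hasFDerivAt.comp q (hFd q hq)
  have hΦp : HasFDerivAt Φ (A : E2 →L[ℝ] ℝ × ℝ) p := by
    rw [hAc]
    exact hΦd p hp
  have hΦc : ContDiffAt ℝ 1 Φ p := P.contDiff.contDiffAt.comp p (hF.contDiffAt (hU.mem_nhds hp))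
  set e := hΦc.toOpenPartialHomeomorph Φ hΦp (by norm_num) with he
  have he_coe : ∀ q, e q = Φ q := fun q => rfl
  have hsrc : p ∈ e.source := hΦc.mem_toOpenPartialHomeomorph_source hΦp (by norm_num)
  have htgt : Φ p ∈ e.target := e.map_source hsrc
  set ψ : ℝ × ℝ → E2 := fun y => e.symm y with hψ
  have hψc : ContDiffAt ℝ 1 ψ (Φ p) := hΦc.to_localInverse hΦp (by norm_num)
  have hψ0 : ψ (Φ p) = p := e.left_inv hsrc
  have ev1 : ∀ᶠ y in 𝓝 (Φ p), ContDiffAt ℝ 1 ψ y := hψc.eventually (by decide)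
  have ev2 : ∀ᶠ y in 𝓝 (Φ p), y ∈ e.target := e.open_target.mem_nhds htgt
  have ev3 : ∀ᶠ y in 𝓝 (Φ p), ψ y ∈ U := by
    refine hψc.continuousAt.eventually (hU.mem_nhds ?_)
    rw [hψ0]
    exact hp
  obtain ⟨ρ, hρ, hO⟩ := Metric.nhds_basis_closedBall.eventually_iff.1 (ev1.and (ev2.and ev3))
  set V := Metric.ball (Φ p) ρ with hV
  have hVO : ∀ y ∈ V, ContDiffAt ℝ 1 ψ y ∧ y ∈ e.target ∧ ψ y ∈ U := fun y hy =>
    hO (Metric.ball_subset_closedBall hy)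
  set G := e.source ∩ e ⁻¹' V with hG
  have hGo : IsOpen G := e.isOpen_inter_preimage Metric.isOpen_ball
  have hGψ : ∀ q ∈ G, ψ (Φ q) = q := fun q hq => e.left_inv hq.1
  have hΦψ : ∀ y ∈ V, Φ (ψ y) = y := fun y hy => e.right_inv (hVO y hy).2.1
  have hψG : ∀ y ∈ V, ψ y ∈ G := fun y hy => ⟨e.map_target (hVO y hy).2.1, by
    change Φ (ψ y) ∈ V
    rw [hΦψ y hy]
    exact hy⟩
  have hGU : G ⊆ U := fun q hq => by
    have := (hVO (Φ q) hq.2).2.2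
    rwa [hGψ q hq] at this
  -- the height
  set f : ℝ × ℝ → ℝ := fun y => ⟪e3, F (ψ y)⟫ with hf
  have hfc : ∀ y ∈ Metric.closedBall (Φ p) ρ, ContDiffAt ℝ 1 f y := by
    intro y hy
    have h := hO hy
    have h3 : ContDiffAt ℝ 1 (fun y => F (ψ y)) y :=
      (hF.contDiffAt (hU.mem_nhds h.2.2)).comp y h.1
    exact contDiffAt_const.inner ℝ h3
  set g1 : ℝ × ℝ → ℝ := fun y => fderiv ℝ f y (1, 0) with hg1
  set g2 : ℝ × ℝ → ℝ := fun y => fderiv ℝ f y (0, 1) with hg2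
  have hgrad : HasGrad f g1 g2 V := by
    intro y hy
    have h3 := ((hfc y (Metric.ball_subset_closedBall hy)).differentiableAt
      (by norm_num)).hasFDerivAt
    refine h3.congr_fderiv ?_
    ext <;> simp [hg1, hg2]
  have hfdc : ContinuousOn (fderiv ℝ f) (Metric.closedBall (Φ p) ρ) := by
    intro y hy
    have h3 := (hfc y hy).fderiv_right (m := 0) (by norm_num)
    exact h3.continuousAt.continuousWithinAt
  have hg1c : ContinuousOn g1 (Metric.closedBall (Φ p) ρ) := hfdc.clm_apply continuousOn_const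
  have hg2c : ContinuousOn g2 (Metric.closedBall (Φ p) ρ) := hfdc.clm_apply continuousOn_const
  have hu1 : UniformContinuousOn g1 V :=
    ((isCompact_closedBall _ _).uniformContinuousOn_of_continuous hg1c).mono
      Metric.ball_subset_closedBall
  have hu2 : UniformContinuousOn g2 V :=
    ((isCompact_closedBall _ _).uniformContinuousOn_of_continuous hg2c).mono
      Metric.ball_subset_closedBall
  -- the normal
  have hnormal : ∀ q ∈ G, ∀ h : E2,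
      ⟪e3 - g1 (Φ q) • e1 - g2 (Φ q) • e2, fderiv ℝ F q h⟫ = 0 := by
    intro q hq h
    have d1 : HasFDerivAt (fun q => ⟪e3, F q⟫) ((innerSL ℝ e3).comp (fderiv ℝ F q)) q :=
      (innerSL ℝ e3).hasFDerivAt.comp q (hFd q (hGU hq))
    have d2 : HasFDerivAt (fun q => f (Φ q)) ((g1 (Φ q) • ContinuousLinearMap.fst ℝ ℝ ℝ +
        g2 (Φ q) • ContinuousLinearMap.snd ℝ ℝ ℝ).comp (P.comp (fderiv ℝ F q))) q :=
      (hgrad (Φ q) hq.2).comp q (hΦd q (hGU hq))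
    have heq : (fun q => ⟪e3, F q⟫) =ᶠ[𝓝 q] fun q => f (Φ q) := by
      filter_upwards [hGo.mem_nhds hq] with r hr
      simp only [hf]
      rw [hGψ r hr]
    have d3 := (d2.congr_of_eventuallyEq heq).unique d1
    have d4 := congrArg (fun T : E2 →L[ℝ] ℝ => T h) d3
    simp only [ContinuousLinearMap.comp_apply, _root_.add_apply,
      _root_.smul_apply, ContinuousLinearMap.coe_fst', ContinuousLinearMap.coe_snd',
      hPa, innerSL_apply_apply, smul_eq_mul] at d4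
    rw [inner_expand, ← d4]
    ring
  have hsurj : ∀ q ∈ G, ∀ k : ℝ × ℝ, ∃ h : E2, P (fderiv ℝ F q h) = k := by
    intro q hq k
    have hψd : HasFDerivAt ψ (fderiv ℝ ψ (Φ q)) (Φ q) :=
      ((hVO (Φ q) hq.2).1.differentiableAt (by norm_num)).hasFDerivAt
    have hΦd' : HasFDerivAt Φ (P.comp (fderiv ℝ F q)) (ψ (Φ q)) := by
      rw [hGψ q hq]
      exact hΦd q (hGU hq)
    have d1 := hΦd'.comp (Φ q) hψd
    have heq : (Φ ∘ ψ) =ᶠ[𝓝 (Φ q)] id := by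
      filter_upwards [Metric.isOpen_ball.mem_nhds hq.2] with y hy
      exact hΦψ y hy
    have d2 := (hasFDerivAt_id (𝕜 := ℝ) (Φ q)).congr_of_eventuallyEq heq
    have d3 := d1.unique d2
    refine ⟨fderiv ℝ ψ (Φ q) k, ?_⟩
    have d4 := congrArg (fun T : ℝ × ℝ →L[ℝ] ℝ × ℝ => T k) d3
    simpa using d4
  -- the segments
  have hTV : ∀ y ∈ V, ∃ w : ℝ × ℝ, w ≠ 0 ∧ ∃ ε > 0, ∀ s : ℝ, |s| < ε →
      y + s • w ∈ V ∧ g1 (y + s • w) = g1 y ∧ g2 (y + s • w) = g2 y := by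
    intro y hy
    have hq := hψG y hy
    set q := ψ y with hqdef
    have hΦq : Φ q = y := hΦψ y hy
    obtain ⟨v, hv, ε, hε, c, hc, hc0, hcs⟩ := hT q (hGU hq)
    have hcc : ContinuousAt c 0 := hc.continuousAt (Ioo_mem_nhds (by linarith) hε)
    have hev : ∀ᶠ s in 𝓝 (0 : ℝ), c s ∈ G ∧ s ∈ Ioo (-ε) ε := by
      refine (hcc.eventually (hGo.mem_nhds ?_)).and (Ioo_mem_nhds (by linarith) hε)
      rw [hc0]
      exact hq
    obtain ⟨ε1, hε1, hev1⟩ := Metric.eventually_nhds_iff.1 hev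
    have hmain : ∀ s : ℝ, |s| < ε1 → c s ∈ G ∧ s ∈ Ioo (-ε) ε ∧ Φ (c s) = y + s • P v := by
      intro s hs
      have h3 := hev1 (y := s) (by rwa [Real.dist_eq, sub_zero])
      refine ⟨h3.1, h3.2, ?_⟩
      change P (F (c s)) = _
      rw [(hcs s h3.2).2.1, map_add, map_smul]
      change Φ q + _ = _
      rw [hΦq]
    refine ⟨P v, ?_, ε1, hε1, fun s hs => ?_⟩
    · intro h0
      have h3 := hmain (ε1 / 2) (by rw [abs_of_pos (by linarith)]; linarith)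
      rw [h0, smul_zero, add_zero] at h3
      have h4 : c (ε1 / 2) = q := by
        rw [← hGψ _ h3.1, h3.2.2]
      have h5 := (hcs _ h3.2.1).2.1
      rw [h4] at h5
      have h6 : (ε1 / 2) • v = 0 := by
        have := h5.symm
        rwa [add_eq_left] at this
      rcases smul_eq_zero.1 h6 with h7 | h7
      · linarith
      · exact hv h7
    · obtain ⟨k1, k2, k3⟩ := hmain s hs
      rw [← k3]
      refine ⟨k1.2, ?_⟩
      -- both normals are orthogonal to the same plane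
      have hdiff : ∀ k : ℝ × ℝ, (g1 (Φ q) - g1 (Φ (c s))) * k.1 +
          (g2 (Φ q) - g2 (Φ (c s))) * k.2 = 0 := by
        intro k
        obtain ⟨h, hh⟩ := hsurj q hq k
        have n1 := hnormal q hq h
        have hmem : fderiv ℝ F q h ∈ (fderiv ℝ F (c s)).range := by
          rw [(hcs s k2).2.2]
          exact ⟨h, rfl⟩
        obtain ⟨h', hh'⟩ := hmem
        have n2 := hnormal (c s) k1 h'
        have hh'' : fderiv ℝ F (c s) h' = fderiv ℝ F q h := hh'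
        rw [hh''] at n2
        rw [hPa] at hh
        rw [inner_expand] at n1 n2
        have hk1 : ⟪e1, fderiv ℝ F q h⟫ = k.1 := congrArg Prod.fst hh
        have hk2 : ⟪e2, fderiv ℝ F q h⟫ = k.2 := congrArg Prod.snd hh
        rw [hk1, hk2] at n1 n2
        linarith
      have hd1 := hdiff (1, 0)
      have hd2 := hdiff (0, 1)
      simp only [mul_one, mul_zero, add_zero, zero_add] at hd1 hd2
      rw [hΦq] at hd1 hd2
      exact ⟨by linarith, by linarith⟩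
  -- conclusion
  have hbd : ∀ z ∈ V, |z.1| ≤ (|(Φ p).1| + |(Φ p).2| + ρ) ∧ |z.2| ≤ (|(Φ p).1| + |(Φ p).2| + ρ) := by
    intro z hz
    rw [hV, Metric.mem_ball, Prod.dist_eq, max_lt_iff, Real.dist_eq, Real.dist_eq] at hz
    constructor
    · have := abs_sub_abs_le_abs_sub z.1 (Φ p).1
      linarith [abs_nonneg (Φ p).2]
    · have := abs_sub_abs_le_abs_sub z.2 (Φ p).2
      linarith [abs_nonneg (Φ p).1]
  have hnull := null_grad hgrad (convex_ball _ _)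
    (R := |(Φ p).1| + |(Φ p).2| + ρ) (by positivity) hbd hu1 hu2 hTV
  refine ⟨G, hGo, ⟨hsrc, Metric.mem_ball_self hρ⟩, hGU,
    fun q => psi e1 e2 e3 (g1 (Φ q), g2 (Φ q)), ?_, ?_, ?_⟩
  · obtain ⟨K, hK⟩ := psi_lipschitz he3n o1 o2
    have hΦG : ContinuousOn Φ G := fun q hq => (hΦd q (hGU hq)).continuousAt.continuousWithinAt
    refine hK.continuous.comp_continuousOn (ContinuousOn.prodMk ?_ ?_)
    · exact (hg1c.mono Metric.ball_subset_closedBall).comp hΦG (fun q hq => hq.2)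
    · exact (hg2c.mono Metric.ball_subset_closedBall).comp hΦG (fun q hq => hq.2)
  · intro q hq
    have h3 := one_le_norm he3n o1 o2 (g1 (Φ q)) (g2 (Φ q))
    refine ⟨?_, fun h => ?_⟩
    · unfold psi
      rw [norm_smul, norm_inv, norm_norm, inv_mul_cancel₀ (by
        have : 0 < ‖e3 - g1 (Φ q) • e1 - g2 (Φ q) • e2‖ := by linarith
        exact this.ne')]
    · unfold psi
      rw [inner_smul_left, hnormal q hq h, mul_zero]
  · have h3 : (fun q => psi e1 e2 e3 (g1 (Φ q), g2 (Φ q))) '' G ⊆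
        psi e1 e2 e3 '' ((fun z => (g1 z, g2 z)) '' V) := by
      rintro _ ⟨q, hq, rfl⟩
      exact ⟨_, ⟨Φ q, hq.2, rfl⟩, rfl⟩
    exact measure_mono_null h3 (psi_null he3n o1 o2 hnull)

end Q62.TR
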