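import Mathlib

/-!
The gradient image of a `C¹` function of two variables whose gradient is constant along a segment
through every point is a Lebesgue null set.
-/

set_option autoImplicit false

namespace Q62.TR

open MeasureTheory Set Filter Topology

/-- `f` has gradient `(g1, g2)` on `V`. -/
def HasGrad (f g1 g2 : ℝ × ℝ → ℝ) (V : Set (ℝ × ℝ)) : Prop :=
  ∀ z ∈ V, HasFDerivAt f (g1 z • ContinuousLinearMap.fst ℝ ℝ ℝ +
    g2 z • ContinuousLinearMap.snd ℝ ℝ ℝ) z

theorem HasGrad.line {f g1 g2 : ℝ × ℝ → ℝ} {V : Set (ℝ × ℝ)} (hf : HasGrad f g1 g2 V)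
    {p e : ℝ × ℝ} {s : ℝ} (hs : p + s • e ∈ V) :
    HasDerivAt (fun s : ℝ => f (p + s • e)) (g1 (p + s • e) * e.1 + g2 (p + s • e) * e.2) s := by
  have h1 : HasDerivAt (fun s : ℝ => p + s • e) e s := by
    have := ((hasDerivAt_id s).smul_const e).const_add p
    simpa using this
  have h2 := (hf _ hs).comp_hasDerivAt s h1
  refine h2.congr_deriv ?_
  simp

/-- The mean value theorem along a segment. -/
theorem HasGrad.mvt {f g1 g2 : ℝ × ℝ → ℝ} {V : Set (ℝ × ℝ)} (hf : HasGrad f g1 g2 V)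
    {p e : ℝ × ℝ} {l : ℝ} (hl : 0 < l) (h : ∀ s ∈ Icc (0 : ℝ) l, p + s • e ∈ V) :
    ∃ s ∈ Icc (0 : ℝ) l, f (p + l • e) - f p =
      l * (g1 (p + s • e) * e.1 + g2 (p + s • e) * e.2) := by
  obtain ⟨s, hs, hs'⟩ := exists_hasDerivAt_eq_slope (fun s : ℝ => f (p + s • e))
    (fun s => g1 (p + s • e) * e.1 + g2 (p + s • e) * e.2) hl
    (fun s hs => (hf.line (h s hs)).continuousAt.continuousWithinAt)
    (fun s hs => hf.line (h s (Ioo_subset_Icc_self hs)))
  refine ⟨s, Ioo_subset_Icc_self hs, ?_⟩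
  rw [hs', sub_zero, mul_div_cancel₀ _ hl.ne']
  simp

/-- The segment through `(x0, y)` with slope `m` over `|x - x0| ≤ δ` lies in `V` and the gradient
is constant on it. -/
def Ruling (g1 g2 : ℝ × ℝ → ℝ) (V : Set (ℝ × ℝ)) (x0 δ y m : ℝ) : Prop :=
  ∀ t : ℝ, |t| ≤ δ → (x0 + t, y + m * t) ∈ V ∧ g1 (x0 + t, y + m * t) = g1 (x0, y) ∧
    g2 (x0 + t, y + m * t) = g2 (x0, y)

theorem vert_mvt {f g1 g2 : ℝ × ℝ → ℝ} {V : Set (ℝ × ℝ)} (hf : HasGrad f g1 g2 V)
    (hV : Convex ℝ V) {x Y Y' : ℝ} (h : (x, Y) ∈ V) (h' : (x, Y') ∈ V) :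
    ∃ η, (x, η) ∈ V ∧ |η - Y'| ≤ |Y - Y'| ∧ f (x, Y') - f (x, Y) = (Y' - Y) * g2 (x, η) := by
  have key : ∀ A B : ℝ, A < B → (x, A) ∈ V → (x, B) ∈ V →
      ∃ η ∈ Icc A B, (x, η) ∈ V ∧ f (x, B) - f (x, A) = (B - A) * g2 (x, η) := by
    intro A B hAB hA hB
    have hseg : ∀ s ∈ Icc (0 : ℝ) (B - A), ((x, A) : ℝ × ℝ) + s • ((0, 1) : ℝ × ℝ) ∈ V := by
      intro s hs
      have hBA : 0 < B - A := by linarith
      have hc := hV hA hB (a := 1 - s / (B - A)) (b := s / (B - A))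
        (by
          have : s / (B - A) ≤ 1 := (div_le_one hBA).2 hs.2
          linarith) (div_nonneg hs.1 hBA.le) (by ring)
      convert hc using 1
      ext
      · simp
        ring
      · simp
        field_simp
        ring
    obtain ⟨s, hs, hs'⟩ := hf.mvt (p := (x, A)) (e := (0, 1)) (l := B - A) (by linarith) hseg
    have e1 : ∀ s : ℝ, ((x, A) : ℝ × ℝ) + s • ((0, 1) : ℝ × ℝ) = (x, A + s) := fun s => by
      ext <;> simp
    rw [e1, e1] at hs'
    refine ⟨A + s, ⟨by linarith [hs.1], by linarith [hs.2]⟩, ?_, ?_⟩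
    · have := hseg s hs
      rwa [e1] at this
    · have e2 : A + (B - A) = B := by ring
      rw [e2] at hs'
      rw [hs']
      simp
  rcases lt_trichotomy Y Y' with hlt | heq | hgt
  · obtain ⟨η, hη, hηV, he⟩ := key Y Y' hlt h h'
    refine ⟨η, hηV, ?_, he⟩
    rw [abs_of_nonpos (by linarith [hη.2]), abs_of_nonpos (by linarith)]
    linarith [hη.1]
  · subst heq
    exact ⟨Y, h, le_refl _, by simp⟩
  · obtain ⟨η, hη, hηV, he⟩ := key Y' Y hgt h' h
    refine ⟨η, hηV, ?_, by linarith⟩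
    rw [abs_of_nonneg (by linarith [hη.1]), abs_of_nonneg (by linarith)]
    linarith [hη.2]

/-- The slab estimate. -/
theorem slab {f g1 g2 : ℝ × ℝ → ℝ} {V : Set (ℝ × ℝ)} (hf : HasGrad f g1 g2 V)
    (hV : Convex ℝ V) {x0 δ y y' m m' η : ℝ} (hδ : 0 < δ) (hη : 0 ≤ η)
    (hr : Ruling g1 g2 V x0 δ y m) (hr' : Ruling g1 g2 V x0 δ y' m')
    (hω : ∀ z ∈ V, ∀ z' ∈ V, dist z z' ≤ 2 * |y' - y| → |g2 z - g2 z'| ≤ η) :
    |(g1 (x0, y') - g1 (x0, y)) + m * (g2 (x0, y') - g2 (x0, y))| ≤ 3 / δ * |y' - y| * η := by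
  by_cases hcross : ∃ t : ℝ, |t| ≤ δ ∧ y + m * t = y' + m' * t
  · obtain ⟨t, ht, hE⟩ := hcross
    have h1 := hr t ht
    have h2 := hr' t ht
    rw [← hE] at h2
    have e1 : g1 (x0, y') = g1 (x0, y) := by rw [← h1.2.1, ← h2.2.1]
    have e2 : g2 (x0, y') = g2 (x0, y) := by rw [← h1.2.2, ← h2.2.2]
    rw [e1, e2]
    simp
    positivity
  · push Not at hcross
    -- the slopes are close
    have hm : |m' - m| * δ ≤ |y' - y| := by
      by_contra hcon
      push Not at hcon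
      have hne : m' - m ≠ 0 := by
        intro h0
        rw [h0] at hcon
        simp at hcon
        linarith [abs_nonneg (y' - y)]
      refine hcross (-(y' - y) / (m' - m)) ?_ ?_
      · rw [abs_div, abs_neg, div_le_iff₀ (abs_pos.2 hne)]
        linarith
      · have : (m' - m) * (-(y' - y) / (m' - m)) = -(y' - y) := mul_div_cancel₀ _ hne
        linarith
    have hr0 := hr 0 (by simp; exact hδ.le)
    have hr0' := hr' 0 (by simp; exact hδ.le)
    have hr1 := hr δ (by rw [abs_of_pos hδ])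
    have hr1' := hr' δ (by rw [abs_of_pos hδ])
    simp only [add_zero, mul_zero] at hr0 hr0'
    -- values at the right end of the rulings
    have along : ∀ y m : ℝ, Ruling g1 g2 V x0 δ y m →
        f (x0 + δ, y + m * δ) - f (x0, y) = δ * (g1 (x0, y) + m * g2 (x0, y)) := by
      intro y m hr
      have e1 : ∀ s : ℝ, ((x0, y) : ℝ × ℝ) + s • ((1, m) : ℝ × ℝ) = (x0 + s, y + m * s) :=
        fun s => by
          ext
          · simp
          · simp
            ring
      obtain ⟨s, hs, hs'⟩ := hf.mvt (p := (x0, y)) (e := (1, m)) (l := δ) hδ (fun s hs => by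
        rw [e1]
        exact (hr s (by rw [abs_of_nonneg hs.1]; exact hs.2)).1)
      rw [e1, e1] at hs'
      have h3 := hr s (by rw [abs_of_nonneg hs.1]; exact hs.2)
      rw [hs', h3.2.1, h3.2.2]
      ring
    have a1 := along y m hr
    have a2 := along y' m' hr'
    obtain ⟨η0, hη0V, hη0, v0⟩ := vert_mvt hf hV hr0.1 hr0'.1
    obtain ⟨η1, hη1V, hη1, v1⟩ := vert_mvt hf hV hr1.1 hr1'.1
    have hD : |(y + m * δ) - (y' + m' * δ)| ≤ 2 * |y' - y| := by
      have : (y + m * δ) - (y' + m' * δ) = -(y' - y) - (m' - m) * δ := by ring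
      rw [this]
      calc |-(y' - y) - (m' - m) * δ| ≤ |-(y' - y)| + |(m' - m) * δ| := abs_sub _ _
        _ = |y' - y| + |m' - m| * δ := by rw [abs_neg, abs_mul, abs_of_pos hδ]
        _ ≤ _ := by linarith
    have b0 : |g2 (x0, η0) - g2 (x0, y')| ≤ η := by
      refine hω _ hη0V _ hr0'.1 ?_
      rw [Prod.dist_eq, dist_self, max_eq_right dist_nonneg, Real.dist_eq]
      refine hη0.trans ?_
      rw [abs_sub_comm]
      linarith [abs_nonneg (y' - y)]
    have b1 : |g2 (x0 + δ, η1) - g2 (x0, y')| ≤ η := by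
      rw [← hr1'.2.2]
      refine hω _ hη1V _ hr1'.1 ?_
      rw [Prod.dist_eq, dist_self, max_eq_right dist_nonneg, Real.dist_eq]
      exact hη1.trans hD
    have key : δ * ((g1 (x0, y') - g1 (x0, y)) + m * (g2 (x0, y') - g2 (x0, y))) =
        ((y' + m' * δ) - (y + m * δ)) * (g2 (x0 + δ, η1) - g2 (x0, y')) -
          (y' - y) * (g2 (x0, η0) - g2 (x0, y')) := by
      linear_combination a1 - a2 - v0 + v1
    have hfin : δ * |(g1 (x0, y') - g1 (x0, y)) + m * (g2 (x0, y') - g2 (x0, y))| ≤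
        3 * |y' - y| * η := by
      have hab : δ * |(g1 (x0, y') - g1 (x0, y)) + m * (g2 (x0, y') - g2 (x0, y))| =
          |δ * ((g1 (x0, y') - g1 (x0, y)) + m * (g2 (x0, y') - g2 (x0, y)))| := by
        rw [abs_mul, abs_of_pos hδ]
      rw [hab, key]
      calc _ ≤ |((y' + m' * δ) - (y + m * δ)) * (g2 (x0 + δ, η1) - g2 (x0, y'))| +
            |(y' - y) * (g2 (x0, η0) - g2 (x0, y'))| := abs_sub _ _
        _ ≤ 2 * |y' - y| * η + |y' - y| * η := by
            rw [abs_mul, abs_mul]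
            have : |(y' + m' * δ) - (y + m * δ)| ≤ 2 * |y' - y| := by
              rw [abs_sub_comm]
              exact hD
            gcongr
        _ = _ := by ring
    have : 3 / δ * |y' - y| * η = (3 * |y' - y| * η) / δ := by ring
    rw [this, le_div_iff₀ hδ]
    linarith

end Q62.TR
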