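import Pool.Agent.Q62.TR.Patch

set_option autoImplicit false

namespace Q62.TR

open MeasureTheory Set Filter Topology Function
open scoped RealInnerProductSpace NNReal Manifold ContDiff

variable {M : Type*} [TopologicalSpace M] [ChartedSpace E2 M]

/-- The differential of `F : M → ℝ³` at `p` in the model space. -/
noncomputable def diff (F : M → E3) (p : M) : E2 →L[ℝ] E3 := mfderiv 𝓘(ℝ, E2) 𝓘(ℝ, E3) F p

/-- The tangent plane of the surface `F` at `p`. -/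
noncomputable def tangentPlane (F : M → E3) (p : M) : Submodule ℝ E3 :=
  ((diff F p : E2 →L[ℝ] E3) : E2 →ₗ[ℝ] E3).range

/-- `F` is a `C¹` immersion of the surface `M`. -/
structure IsImmersion (F : M → E3) : Prop where
  smooth : ContMDiff 𝓘(ℝ, E2) 𝓘(ℝ, E3) 1 F
  inj : ∀ p, Injective (diff F p)

/-- Through every point passes a straight segment of the surface, with the point in its interior,
along which the tangent plane is constant. -/
def IsTorse (F : M → E3) : Prop :=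
  ∀ p : M, ∃ v : E3, v ≠ 0 ∧ ∃ ε > 0, ∃ c : ℝ → M, ContinuousOn c (Ioo (-ε) ε) ∧ c 0 = p ∧
    ∀ s ∈ Ioo (-ε) ε, F (c s) = F p + s • v ∧ tangentPlane F (c s) = tangentPlane F p

/-- `n` is a continuous unit normal of the surface on `G`. -/
def IsUnitNormal (F : M → E3) (G : Set M) (n : M → E3) : Prop :=
  ContinuousOn n G ∧ ∀ p ∈ G, ‖n p‖ = 1 ∧ ∀ w ∈ tangentPlane F p, ⟪n p, w⟫ = 0

/-- The spherical image is locally of area zero. -/
def NullSphericalImage (F : M → E3) : Prop :=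
  ∀ p : M, ∃ G : Set M, IsOpen G ∧ p ∈ G ∧ ∃ n : M → E3, IsUnitNormal F G n ∧
    Measure.hausdorffMeasure 2 (n '' G) = 0

/-- Bounded extrinsic curvature in the sense of Pogorelov. -/
def IsBECP (F : M → E3) : Prop :=
  ∀ p : M, ∃ G : Set M, IsOpen G ∧ p ∈ G ∧ ∃ n : M → E3, IsUnitNormal F G n ∧ ∃ C : ℝ≥0,
    ∀ (k : ℕ) (H : Fin k → Set M), (∀ i, IsClosed (H i) ∧ H i ⊆ G) →
      Pairwise (fun i j => Disjoint (H i) (H j)) →
        ∑ i, Measure.hausdorffMeasure 2 (n '' H i) ≤ C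

theorem diff_chart [IsManifold 𝓘(ℝ, E2) 1 M] {F : M → E3} (hF : IsImmersion F) (p : M) {q : M}
    (hq : q ∈ (chartAt E2 p).source) :
    ∃ A : E2 →L[ℝ] E2, Bijective A ∧
      diff F q = (fderiv ℝ (F ∘ (chartAt E2 p).symm) (chartAt E2 p q)).comp A := by
  set φ := chartAt E2 p with hφ
  have hmd : φ.MDifferentiable 𝓘(ℝ, E2) 𝓘(ℝ, E2) := mdifferentiable_chart p
  refine ⟨mfderiv 𝓘(ℝ, E2) 𝓘(ℝ, E2) φ q, hmd.mfderiv_bijective hq, ?_⟩
  have h1 : F =ᶠ[𝓝 q] (F ∘ φ.symm) ∘ φ := by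
    filter_upwards [φ.open_source.mem_nhds hq] with r hr
    simp [φ.left_inv hr]
  have h2 : MDifferentiableAt 𝓘(ℝ, E2) 𝓘(ℝ, E2) φ q := hmd.mdifferentiableAt hq
  have h3 : MDifferentiableAt 𝓘(ℝ, E2) 𝓘(ℝ, E3) (F ∘ φ.symm) (φ q) := by
    have h4 : MDifferentiableAt 𝓘(ℝ, E2) 𝓘(ℝ, E2) φ.symm (φ q) :=
      hmd.mdifferentiableAt_symm (φ.map_source hq)
    exact (hF.smooth.mdifferentiable (by norm_num) _).comp _ h4
  have h5 := mfderiv_comp q h3 h2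
  have h6 : mfderiv 𝓘(ℝ, E2) 𝓘(ℝ, E3) F q = mfderiv 𝓘(ℝ, E2) 𝓘(ℝ, E3) ((F ∘ φ.symm) ∘ φ) q :=
    h1.mfderiv_eq
  have h7 : mfderiv 𝓘(ℝ, E2) 𝓘(ℝ, E3) (F ∘ φ.symm) (φ q) = fderiv ℝ (F ∘ φ.symm) (φ q) :=
    mfderiv_eq_fderiv
  unfold diff
  rw [h6, h5, h7]
  rfl

theorem null_of_torse [IsManifold 𝓘(ℝ, E2) 1 M] {F : M → E3} (hF : IsImmersion F)
    (hT : IsTorse F) : NullSphericalImage F := by
  intro p
  set φ := chartAt E2 p with hφ
  have hps : p ∈ φ.source := mem_chart_source E2 p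
  have hcd : ContDiffOn ℝ 1 (F ∘ φ.symm) φ.target := by
    have h1 : ContMDiffOn 𝓘(ℝ, E2) 𝓘(ℝ, E2) 1 φ.symm φ.target := contMDiffOn_chart_symm
    exact (hF.smooth.comp_contMDiffOn h1).contDiffOn
  have hrange : ∀ q ∈ φ.source, tangentPlane F q =
      (fderiv ℝ (F ∘ φ.symm) (φ q) : E2 →ₗ[ℝ] E3).range := by
    intro q hq
    obtain ⟨A, hA, hd⟩ := diff_chart hF p hq
    unfold tangentPlane
    rw [hd]
    ext w
    constructor
    · rintro ⟨x, rfl⟩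
      exact ⟨A x, rfl⟩
    · rintro ⟨x, rfl⟩
      obtain ⟨y, rfl⟩ := hA.2 x
      exact ⟨y, rfl⟩
  have hinj : ∀ y ∈ φ.target, Injective (fderiv ℝ (F ∘ φ.symm) y) := by
    intro y hy
    have hq : φ.symm y ∈ φ.source := φ.map_target hy
    obtain ⟨A, hA, hd⟩ := diff_chart hF p hq
    have hyy : φ (φ.symm y) = y := φ.right_inv hy
    rw [← hφ, hyy] at hd
    have h1 := hF.inj (φ.symm y)
    rw [hd] at h1
    intro a b hab
    obtain ⟨a', rfl⟩ := hA.2 a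
    obtain ⟨b', rfl⟩ := hA.2 b
    rw [h1 (show ((fderiv ℝ (F ∘ φ.symm) y).comp A) a' =
      ((fderiv ℝ (F ∘ φ.symm) y).comp A) b' from hab)]
  have hTU : ∀ y ∈ φ.target, ∃ v : E3, v ≠ 0 ∧ ∃ ε > 0, ∃ c : ℝ → E2,
      ContinuousOn c (Ioo (-ε) ε) ∧ c 0 = y ∧ ∀ s ∈ Ioo (-ε) ε, c s ∈ φ.target ∧
        (F ∘ φ.symm) (c s) = (F ∘ φ.symm) y + s • v ∧
        (fderiv ℝ (F ∘ φ.symm) (c s) : E2 →ₗ[ℝ] E3).range =
          (fderiv ℝ (F ∘ φ.symm) y : E2 →ₗ[ℝ] E3).range := by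
    intro y hy
    have hq : φ.symm y ∈ φ.source := φ.map_target hy
    have hyy : φ (φ.symm y) = y := φ.right_inv hy
    obtain ⟨v, hv, ε, hε, c, hc, hc0, hcs⟩ := hT (φ.symm y)
    have hcc : ContinuousAt c 0 := hc.continuousAt (Ioo_mem_nhds (by linarith) hε)
    have hev : ∀ᶠ s in 𝓝 (0 : ℝ), c s ∈ φ.source ∧ s ∈ Ioo (-ε) ε := by
      refine (hcc.eventually (φ.open_source.mem_nhds ?_)).and (Ioo_mem_nhds (by linarith) hε)
      rw [hc0]
      exact hq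
    obtain ⟨ε1, hε1, hev1⟩ := Metric.eventually_nhds_iff.1 hev
    have hin : ∀ s ∈ Ioo (-ε1) ε1, c s ∈ φ.source ∧ s ∈ Ioo (-ε) ε := fun s hs =>
      hev1 (y := s) (by rw [Real.dist_eq, sub_zero, abs_lt]; exact hs)
    refine ⟨v, hv, ε1, hε1, fun s => φ (c s), ?_, ?_, fun s hs => ⟨?_, ?_, ?_⟩⟩
    · intro s hs
      have h1 := hin s hs
      have h2 : ContinuousAt c s := hc.continuousAt (Ioo_mem_nhds h1.2.1 h1.2.2)
      exact ((φ.continuousAt h1.1).comp h2).continuousWithinAt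
    · change φ (c 0) = y
      rw [hc0, hyy]
    · exact φ.map_source (hin s hs).1
    · change F (φ.symm (φ (c s))) = F (φ.symm y) + s • v
      rw [φ.left_inv (hin s hs).1]
      exact (hcs s (hin s hs).2).1
    · change (fderiv ℝ (F ∘ φ.symm) (φ (c s)) : E2 →ₗ[ℝ] E3).range = _
      rw [← hrange (c s) (hin s hs).1, (hcs s (hin s hs).2).2, hrange _ hq, hyy]
  obtain ⟨G, hGo, hpG, hGU, n, hnc, hn, hnull⟩ :=
    patch φ.open_target hcd hinj hTU (φ.map_source hps)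
  refine ⟨φ.source ∩ φ ⁻¹' G, φ.isOpen_inter_preimage hGo, ⟨hps, hpG⟩, fun q => n (φ q),
    ⟨?_, ?_⟩, ?_⟩
  · exact hnc.comp (φ.continuousOn.mono inter_subset_left) (fun q hq => hq.2)
  · intro q hq
    refine ⟨(hn _ hq.2).1, fun w hw => ?_⟩
    rw [hrange q hq.1] at hw
    obtain ⟨h, rfl⟩ := hw
    exact (hn _ hq.2).2 h
  · refine measure_mono_null ?_ hnull
    rintro _ ⟨q, hq, rfl⟩
    exact ⟨φ q, hq.2, rfl⟩

theorem becp_of_null {F : M → E3} (h : NullSphericalImage F) : IsBECP F := by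
  intro p
  obtain ⟨G, hG, hp, n, hn, h0⟩ := h p
  refine ⟨G, hG, hp, n, hn, 0, fun k H hH _ => ?_⟩
  have : ∀ i, Measure.hausdorffMeasure 2 (n '' H i) = 0 := fun i =>
    measure_mono_null (image_mono (hH i).2) h0
  simp [this]

end Q62.TR
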